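import Pool.Agent.W78.GM.Basic

/-! Project GM, task GM-S (helper40): the mean of the window over the primitive vectors is at
least one. -/

set_option autoImplicit false

namespace Pool.Agent.W40.GM
open Finset Filter Pool.Agent.H376R2.MR Pool.Agent.H970R2.X Pool.Agent.W78.GM

/-- multiples of `d` in an annulus -/
theorem sum_dvd (A B : ℝ) (d : ℕ) (hd : 1 ≤ d) :
    (open scoped Classical in
    ∑ z ∈ (ann A B).filter (fun z => (d : GaussianInt) ∣ z), 1 / (nm z : ℝ)) =
      1 / (d : ℝ) ^ 2 * ∑ z ∈ ann (A / (d : ℝ) ^ 2) (B / (d : ℝ) ^ 2), 1 / (nm z : ℝ) := by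
  classical
  have hd0 : (0 : ℝ) < (d : ℝ) ^ 2 := by
    have : (1 : ℝ) ≤ d := by exact_mod_cast hd
    positivity
  have hnm : ∀ t : GaussianInt, (nm ((d : GaussianInt) * t) : ℝ) = (d : ℝ) ^ 2 * nm t := by
    intro t
    rw [nm_mul, nm_natCast]
    push_cast
    ring
  have hdG : (d : GaussianInt) ≠ 0 := by
    intro h
    have h1 := congrArg nm h
    rw [nm_natCast, nm_zero] at h1
    have : d = 0 := by
      rcases Nat.eq_zero_or_pos d with h2 | h2
      · exact h2
      · have := pow_pos h2 2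
        omega
    omega
  rw [mul_sum]
  symm
  refine sum_nbij (fun t => (d : GaussianInt) * t) ?_ ?_ ?_ ?_
  · intro t ht
    rw [mem_ann] at ht
    rw [mem_filter, mem_ann]
    refine ⟨⟨?_, ?_, ?_⟩, Dvd.intro _ rfl⟩
    · rw [one_le_nm]
      exact mul_ne_zero hdG (one_le_nm.1 ht.1)
    · rw [hnm]
      have := ht.2.1
      rw [div_lt_iff₀ hd0] at this
      linarith
    · rw [hnm]
      have := ht.2.2
      rw [le_div_iff₀ hd0] at this
      linarith
  · intro a _ b _ hab
    exact mul_left_cancel₀ hdG hab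
  · intro z hz
    rw [mem_coe, mem_filter, mem_ann] at hz
    obtain ⟨⟨h1, h2, h3⟩, t, rfl⟩ := hz
    refine ⟨t, ?_, rfl⟩
    rw [hnm] at h2 h3
    rw [mem_coe, mem_ann]
    refine ⟨?_, ?_, ?_⟩
    · rw [one_le_nm] at h1 ⊢
      exact right_ne_zero_of_mul h1
    · rw [div_lt_iff₀ hd0]; linarith
    · rw [le_div_iff₀ hd0]; linarith
  · intro t _
    rw [hnm, one_div, one_div, one_div, mul_inv]

/-- upper bound for the multiples of `d` in an annulus -/
theorem sum_dvd_le (hL : S_LAT) : ∃ C : ℝ, 0 < C ∧ ∀ (A B : ℝ) (d : ℕ), 1 ≤ A → A ≤ B → 1 ≤ d →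
    (open scoped Classical in
    ∑ z ∈ (ann A B).filter (fun z => (d : GaussianInt) ∣ z), 1 / (nm z : ℝ)) ≤
      1 / (d : ℝ) ^ 2 * (Real.pi * Real.log (B / A) + C * Real.sqrt (d / Real.sqrt A)) := by
  classical
  obtain ⟨C, hC, hball, hann⟩ := hL
  refine ⟨Real.pi + 2 * C, by positivity, fun A B d hA hAB hd => ?_⟩
  rw [sum_dvd A B d hd]
  have hd1 : (1 : ℝ) ≤ d := by exact_mod_cast hd
  have hd0 : (0 : ℝ) < d := by linarith
  have hA0 : 0 < A := by linarith
  have hB0 : 0 < B := by linarith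
  have hsA : 0 < Real.sqrt A := Real.sqrt_pos.2 hA0
  apply mul_le_mul_of_nonneg_left _ (by positivity)
  have hlogAB : 0 ≤ Real.log (B / A) := Real.log_nonneg (by rw [le_div_iff₀ hA0]; linarith)
  rcases le_or_gt ((d : ℝ) ^ 2) A with hdA | hdA
  · -- small `d`
    have h1 : 1 ≤ A / (d : ℝ) ^ 2 := by rw [le_div_iff₀ (by positivity)]; linarith
    have h2 : A / (d : ℝ) ^ 2 ≤ B / (d : ℝ) ^ 2 := by gcongr
    have h3 := (abs_le.1 (hann _ _ h1 h2)).2
    have h4 : B / (d : ℝ) ^ 2 / (A / (d : ℝ) ^ 2) = B / A := by field_simp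
    rw [h4] at h3
    have h5 : Real.sqrt (A / (d : ℝ) ^ 2) = Real.sqrt A / d := by
      rw [Real.sqrt_div hA0.le, Real.sqrt_sq hd0.le]
    rw [h5] at h3
    have h6 : (d : ℝ) / Real.sqrt A ≤ 1 := by
      rw [div_le_one hsA]
      exact Real.le_sqrt_of_sq_le hdA
    have h7 : (d : ℝ) / Real.sqrt A ≤ Real.sqrt (d / Real.sqrt A) := by
      apply Real.le_sqrt_of_sq_le
      have h8 : 0 ≤ (d : ℝ) / Real.sqrt A := by positivity
      nlinarith
    have h9 : C / (Real.sqrt A / d) = C * (d / Real.sqrt A) := by field_simp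
    rw [h9] at h3
    have h10 : C * (d / Real.sqrt A) ≤ (Real.pi + 2 * C) * Real.sqrt (d / Real.sqrt A) := by
      calc C * (d / Real.sqrt A) ≤ C * Real.sqrt (d / Real.sqrt A) := by gcongr
        _ ≤ (Real.pi + 2 * C) * Real.sqrt (d / Real.sqrt A) := by
          apply mul_le_mul_of_nonneg_right _ (Real.sqrt_nonneg _)
          linarith [Real.pi_pos]
    linarith
  · -- large `d`
    have hx : 1 ≤ Real.sqrt (d / Real.sqrt A) := by
      rw [Real.one_le_sqrt, le_div_iff₀ hsA, one_mul]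
      rw [← Real.sqrt_sq hd0.le]
      exact Real.sqrt_le_sqrt hdA.le
    have hgoal : ∑ z ∈ ann (A / (d : ℝ) ^ 2) (B / (d : ℝ) ^ 2), 1 / (nm z : ℝ) ≤
        Real.pi * Real.log (B / A) + (Real.pi + 2 * C) := by
      rcases lt_or_ge (B / (d : ℝ) ^ 2) 1 with hB1 | hB1
      · have hemp : ann (A / (d : ℝ) ^ 2) (B / (d : ℝ) ^ 2) = ∅ := by
          rw [eq_empty_iff_forall_notMem]
          intro z hz
          rw [mem_ann] at hz
          have : (1 : ℝ) ≤ nm z := by exact_mod_cast hz.1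
          linarith [hz.2.2]
        rw [hemp, sum_empty]
        have := Real.pi_pos
        positivity
      · have hsub : ann (A / (d : ℝ) ^ 2) (B / (d : ℝ) ^ 2) ⊆ ball 1 ∪ ann 1 (B / (d : ℝ) ^ 2) := by
          intro z hz
          rw [mem_ann] at hz
          rw [mem_union, mem_ball, mem_ann]
          rcases le_or_gt (nm z : ℝ) 1 with h | h
          · exact Or.inl ⟨hz.1, h⟩
          · exact Or.inr ⟨hz.1, h, hz.2.2⟩
        have hnn : ∀ z : GaussianInt, 0 ≤ 1 / (nm z : ℝ) := fun z => by positivity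
        calc ∑ z ∈ ann (A / (d : ℝ) ^ 2) (B / (d : ℝ) ^ 2), 1 / (nm z : ℝ)
            ≤ ∑ z ∈ ball 1 ∪ ann 1 (B / (d : ℝ) ^ 2), 1 / (nm z : ℝ) :=
              sum_le_sum_of_subset_of_nonneg hsub (fun z _ _ => hnn z)
          _ ≤ ∑ z ∈ ball 1, 1 / (nm z : ℝ) + ∑ z ∈ ann 1 (B / (d : ℝ) ^ 2), 1 / (nm z : ℝ) := by
              rw [← sum_union_inter]
              have : 0 ≤ ∑ z ∈ ball 1 ∩ ann 1 (B / (d : ℝ) ^ 2), 1 / (nm z : ℝ) :=
                sum_nonneg (fun z _ => hnn z)
              linarith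
          _ ≤ (Real.pi + C) + (Real.pi * Real.log (B / A) + C) := by
              apply add_le_add
              · have h1 : ∑ z ∈ ball 1, 1 / (nm z : ℝ) ≤ ∑ z ∈ ball 1, (1 : ℝ) := by
                  apply sum_le_sum
                  intro z hz
                  rw [mem_ball] at hz
                  have : (1 : ℝ) ≤ nm z := by exact_mod_cast hz.1
                  rw [div_le_one (by linarith)]
                  exact this
                rw [sum_const, nsmul_eq_mul, mul_one] at h1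
                have h2 := (abs_le.1 (hball 1 le_rfl)).2
                rw [Real.sqrt_one] at h2
                linarith
              · have h3 := (abs_le.1 (hann 1 (B / (d : ℝ) ^ 2) le_rfl hB1)).2
                rw [Real.sqrt_one, div_one, div_one] at h3
                have h4 : Real.log (B / (d : ℝ) ^ 2) ≤ Real.log (B / A) := by
                  apply Real.log_le_log (by positivity)
                  gcongr
                have h5 : Real.pi * Real.log (B / (d : ℝ) ^ 2) ≤ Real.pi * Real.log (B / A) := by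
                  have := Real.pi_pos
                  gcongr
                linarith
          _ = Real.pi * Real.log (B / A) + (Real.pi + 2 * C) := by ring
    have h6 : (Real.pi + 2 * C) ≤ (Real.pi + 2 * C) * Real.sqrt (d / Real.sqrt A) := by
      have : 0 < Real.pi + 2 * C := by positivity
      nlinarith
    linarith

/-- `2, 3, 5, 7, 9, 11, ...` -/
def dd (k : ℕ) : ℕ := if k = 0 then 2 else 2 * k + 1

theorem dd_pos (k : ℕ) : 1 ≤ dd k := by
  unfold dd
  split_ifs <;> omega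

theorem dd_ge (k : ℕ) : k + 1 ≤ dd k := by
  unfold dd
  split_ifs with h
  · omega
  · omega

theorem sum_dd_sq (N : ℕ) : ∑ k ∈ range N, 1 / (dd k : ℝ) ^ 2 ≤ 1 / 4 + 1 / 9 + 1 / 8 := by
  have key : ∀ n : ℕ, ∑ k ∈ range (n + 2), 1 / (dd k : ℝ) ^ 2 ≤
      1 / 4 + 1 / 9 + 1 / 8 - 1 / (4 * (n : ℝ) + 8) := by
    intro n
    induction n with
    | zero =>
      rw [sum_range_succ, sum_range_one]
      norm_num [dd]
    | succ n ih =>
      rw [show n + 1 + 2 = (n + 2) + 1 by ring, sum_range_succ]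
      have h1 : (dd (n + 2) : ℝ) = 2 * (n : ℝ) + 5 := by
        unfold dd
        rw [if_neg (by omega)]
        push_cast
        ring
      rw [h1]
      have h2 : 1 / (2 * (n : ℝ) + 5) ^ 2 ≤
          1 / (4 * (n : ℝ) + 8) - 1 / (4 * ((n + 1 : ℕ) : ℝ) + 8) := by
        push_cast
        rw [div_sub_div _ _ (by positivity) (by positivity), div_le_div_iff₀ (by positivity)
          (by positivity)]
        nlinarith
      linarith
  rcases Nat.lt_or_ge N 2 with h | h
  · interval_cases N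
    · norm_num
    · rw [sum_range_one]; norm_num [dd]
  · obtain ⟨n, rfl⟩ := Nat.exists_eq_add_of_le h
    have := key n
    rw [add_comm 2 n]
    have h3 : 0 ≤ 1 / (4 * (n : ℝ) + 8) := by positivity
    linarith

theorem sum_dd_err : ∃ Z : ℝ, 0 < Z ∧ ∀ N : ℕ, ∀ x : ℝ, 0 < x →
    ∑ k ∈ range N, 1 / (dd k : ℝ) ^ 2 * Real.sqrt (dd k / x) ≤ Z * (1 / Real.sqrt x) := by
  have hs : Summable (fun k : ℕ => 1 / ((k : ℝ) + 1) ^ (3 / 2 : ℝ)) := by
    have h := (Real.summable_one_div_nat_rpow (p := (3 / 2 : ℝ))).2 (by norm_num)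
    have h2 := (summable_nat_add_iff 1).2 h
    refine h2.congr fun k => ?_
    push_cast
    rfl
  refine ⟨∑' k : ℕ, 1 / ((k : ℝ) + 1) ^ (3 / 2 : ℝ) + 1, ?_, fun N x hx => ?_⟩
  · have : 0 ≤ ∑' k : ℕ, 1 / ((k : ℝ) + 1) ^ (3 / 2 : ℝ) := tsum_nonneg fun k => by positivity
    linarith
  · have hx' : 0 < Real.sqrt x := Real.sqrt_pos.2 hx
    have h1 : ∀ k ∈ range N, 1 / (dd k : ℝ) ^ 2 * Real.sqrt (dd k / x) ≤
        1 / ((k : ℝ) + 1) ^ (3 / 2 : ℝ) * (1 / Real.sqrt x) := by
      intro k _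
      have hd : (0 : ℝ) < dd k := by exact_mod_cast dd_pos k
      have hk : ((k : ℝ) + 1) ≤ dd k := by exact_mod_cast dd_ge k
      rw [Real.sqrt_div hd.le]
      have h2 : 1 / (dd k : ℝ) ^ 2 * (Real.sqrt (dd k) / Real.sqrt x) =
          1 / (dd k : ℝ) ^ (3 / 2 : ℝ) * (1 / Real.sqrt x) := by
        have h3 : (dd k : ℝ) ^ 2 = (dd k : ℝ) ^ (3 / 2 : ℝ) * Real.sqrt (dd k) := by
          rw [Real.sqrt_eq_rpow, ← Real.rpow_add hd]
          norm_num
        rw [h3]
        have h4 : 0 < Real.sqrt (dd k) := Real.sqrt_pos.2 hd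
        have h5 : 0 < (dd k : ℝ) ^ (3 / 2 : ℝ) := by positivity
        field_simp
      rw [h2]
      apply mul_le_mul_of_nonneg_right _ (by positivity)
      apply one_div_le_one_div_of_le (by positivity)
      exact Real.rpow_le_rpow (by positivity) hk (by norm_num)
    refine (sum_le_sum h1).trans ?_
    rw [← sum_mul]
    apply mul_le_mul_of_nonneg_right _ (by positivity)
    have := hs.sum_le_tsum (range N) (fun k _ => by positivity)
    linarith

/-- lower bound for the primitive vectors in an annulus -/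
theorem prim_ann (hL : S_LAT) : ∃ C : ℝ, 0 < C ∧ ∀ A B : ℝ, 1 ≤ A → A ≤ B →
    Real.pi * Real.log (B / A) * (1 - (1 / 4 + 1 / 9 + 1 / 8)) - C / Real.sqrt (Real.sqrt A) ≤
      ∑ z ∈ (ann A B).filter prim, 1 / (nm z : ℝ) := by
  classical
  obtain ⟨C₁, hC₁, hdv⟩ := sum_dvd_le hL
  obtain ⟨C, hC, hball, hann⟩ := hL
  obtain ⟨Z, hZ, hZs⟩ := sum_dd_err
  refine ⟨C + C₁ * Z, by positivity, fun A B hA hAB => ?_⟩
  have hA0 : 0 < A := by linarith
  have hB0 : 0 < B := by linarith
  have hsA : 1 ≤ Real.sqrt A := Real.one_le_sqrt.2 hA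
  have hssA : 1 ≤ Real.sqrt (Real.sqrt A) := Real.one_le_sqrt.2 hsA
  have hlogAB : 0 ≤ Real.log (B / A) := Real.log_nonneg (by rw [le_div_iff₀ hA0]; linarith)
  have htot := (abs_le.1 (hann A B hA hAB)).1
  set N : ℕ := ⌊B⌋₊ + 2 with hN
  have hcover : ann A B ⊆ (ann A B).filter prim ∪
      (range N).biUnion (fun k => (ann A B).filter (fun z => ((dd k : ℕ) : GaussianInt) ∣ z)) := by
    intro z hz
    rw [mem_union]
    by_cases hp : prim z
    · exact Or.inl (mem_filter.2 ⟨hz, hp⟩)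
    · right
      rw [prim_iff] at hp
      push Not at hp
      obtain ⟨p, hpp, hpz⟩ := hp
      rw [mem_biUnion]
      have hz' := hz
      rw [mem_ann] at hz'
      have hle : (p : ℝ) ≤ B := by
        have h1 := nm_dvd hpz
        rw [nm_natCast] at h1
        have h2 := Nat.le_of_dvd hz'.1 h1
        have h3 : p ≤ p ^ 2 := Nat.le_self_pow two_ne_zero p
        have h4 : (p : ℝ) ≤ nm z := by exact_mod_cast h3.trans h2
        linarith [hz'.2.2]
      have hpN : p ≤ ⌊B⌋₊ := Nat.le_floor hle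
      rcases hpp.eq_two_or_odd with h2 | hodd
      · refine ⟨0, ?_, ?_⟩
        · rw [mem_range]; omega
        · rw [mem_filter]
          refine ⟨hz, ?_⟩
          have : dd 0 = p := by rw [h2]; rfl
          rw [this]; exact hpz
      · refine ⟨p / 2, ?_, ?_⟩
        · rw [mem_range]; omega
        · rw [mem_filter]
          refine ⟨hz, ?_⟩
          have : dd (p / 2) = p := by
            unfold dd
            have := hpp.two_le
            rw [if_neg (by omega)]
            omega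
          rw [this]; exact hpz
  have hnn : ∀ z : GaussianInt, 0 ≤ 1 / (nm z : ℝ) := fun z => by positivity
  have hsum : ∑ z ∈ ann A B, 1 / (nm z : ℝ) ≤ ∑ z ∈ (ann A B).filter prim, 1 / (nm z : ℝ) +
      ∑ k ∈ range N, ∑ z ∈ (ann A B).filter (fun z => ((dd k : ℕ) : GaussianInt) ∣ z),
        1 / (nm z : ℝ) := by
    refine (sum_le_sum_of_subset_of_nonneg hcover (fun z _ _ => hnn z)).trans ?_
    have hu : ∀ s t : Finset GaussianInt, ∑ z ∈ s ∪ t, 1 / (nm z : ℝ) ≤
        ∑ z ∈ s, 1 / (nm z : ℝ) + ∑ z ∈ t, 1 / (nm z : ℝ) := by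
      intro s t
      rw [← sum_union_inter]
      have : 0 ≤ ∑ z ∈ s ∩ t, 1 / (nm z : ℝ) := sum_nonneg (fun z _ => hnn z)
      linarith
    refine (hu _ _).trans ?_
    gcongr
    generalize range N = R
    induction R using Finset.induction_on with
    | empty => simp
    | insert k R hk ih =>
      rw [biUnion_insert, sum_insert hk]
      exact (hu _ _).trans (by linarith)
  have hmul : ∑ k ∈ range N, ∑ z ∈ (ann A B).filter (fun z => ((dd k : ℕ) : GaussianInt) ∣ z),
        1 / (nm z : ℝ) ≤ Real.pi * Real.log (B / A) * (1 / 4 + 1 / 9 + 1 / 8) +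
        C₁ * (Z * (1 / Real.sqrt (Real.sqrt A))) := by
    calc ∑ k ∈ range N, ∑ z ∈ (ann A B).filter (fun z => ((dd k : ℕ) : GaussianInt) ∣ z),
        1 / (nm z : ℝ) ≤ ∑ k ∈ range N, (1 / (dd k : ℝ) ^ 2 * (Real.pi * Real.log (B / A) +
          C₁ * Real.sqrt (dd k / Real.sqrt A))) :=
          sum_le_sum fun k _ => hdv A B (dd k) hA hAB (dd_pos k)
      _ = Real.pi * Real.log (B / A) * ∑ k ∈ range N, 1 / (dd k : ℝ) ^ 2 +
          C₁ * ∑ k ∈ range N, 1 / (dd k : ℝ) ^ 2 * Real.sqrt (dd k / Real.sqrt A) := by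
          rw [mul_sum, mul_sum, ← sum_add_distrib]
          apply sum_congr rfl
          intro k _
          ring
      _ ≤ _ := by
          apply add_le_add
          · apply mul_le_mul_of_nonneg_left (sum_dd_sq N)
            have := Real.pi_pos
            positivity
          · exact mul_le_mul_of_nonneg_left (hZs N _ (by linarith)) hC₁.le
  have h1 : C / Real.sqrt A ≤ C / Real.sqrt (Real.sqrt A) := by
    apply div_le_div_of_nonneg_left hC.le (by linarith)
    rw [Real.sqrt_le_left (by linarith)]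
    nlinarith
  have h2 : (C + C₁ * Z) / Real.sqrt (Real.sqrt A) =
      C / Real.sqrt (Real.sqrt A) + C₁ * (Z * (1 / Real.sqrt (Real.sqrt A))) := by
    field_simp
  rw [h2]
  linarith

/-- GM-S -/
theorem a0_of : S_LAT → S_A0 := by
  classical
  intro hL
  obtain ⟨C, hC, hprim⟩ := prim_ann hL
  -- the error is small
  have hA1 : 1 ≤ max 1 ((10 * C) ^ 4) := le_max_left _ _
  refine ⟨Real.exp 1 * max 1 ((10 * C) ^ 4), fun Y hY => ?_⟩
  have hYe : max 1 ((10 * C) ^ 4) ≤ Real.exp (-1) * Y := by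
    have h1 : Real.exp (-1) * (Real.exp 1 * max 1 ((10 * C) ^ 4)) ≤ Real.exp (-1) * Y := by gcongr
    rw [← mul_assoc, ← Real.exp_add] at h1
    simpa using h1
  have hY0 : 0 < Y := lt_of_lt_of_le (by positivity) hY
  have hone : ∀ c : ℝ, 0 ≤ c → c ≤ 1 → Real.pi * (2 * c) * (1 - (1 / 4 + 1 / 9 + 1 / 8)) - 1 / 10 ≤
      ∑ z ∈ (ann (Real.exp (-c) * Y) (Real.exp c * Y)).filter prim, 1 / (nm z : ℝ) := by
    intro c hc0 hc1
    have hA : max 1 ((10 * C) ^ 4) ≤ Real.exp (-c) * Y := by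
      refine hYe.trans ?_
      gcongr
    have hA' : 1 ≤ Real.exp (-c) * Y := hA1.trans hA
    have hAB : Real.exp (-c) * Y ≤ Real.exp c * Y := by
      gcongr
      linarith
    have h1 := hprim _ _ hA' hAB
    have h2 : Real.exp c * Y / (Real.exp (-c) * Y) = Real.exp (2 * c) := by
      rw [mul_div_mul_right _ _ hY0.ne', ← Real.exp_sub]
      congr 1
      ring
    rw [h2, Real.log_exp] at h1
    have h3 : C / Real.sqrt (Real.sqrt (Real.exp (-c) * Y)) ≤ 1 / 10 := by
      have h4 : 10 * C ≤ Real.sqrt (Real.sqrt (Real.exp (-c) * Y)) := by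
        apply Real.le_sqrt_of_sq_le
        apply Real.le_sqrt_of_sq_le
        calc ((10 * C) ^ 2) ^ 2 = (10 * C) ^ 4 := by ring
          _ ≤ _ := (le_max_right _ _).trans hA
      rw [div_le_div_iff₀ (lt_of_lt_of_le (by positivity) h4) (by norm_num)]
      linarith
    linarith
  have h1 := hone (1 / 4) (by norm_num) (by norm_num)
  have h2 := hone (1 / 2) (by norm_num) (by norm_num)
  have h3 := hone (3 / 4) (by norm_num) (by norm_num)
  -- the window
  have hw : ∀ c : ℝ, 0 ≤ c → c ≤ 1 → ∀ z ∈ ann (Real.exp (-c) * Y) (Real.exp c * Y),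
      |Real.log (nm z) - Real.log Y| ≤ c := by
    intro c hc0 hc1 z hz
    rw [mem_ann] at hz
    have hn0 : (0 : ℝ) < nm z := by exact_mod_cast hz.1
    rw [abs_le]
    constructor
    · have := Real.log_le_log (by positivity) hz.2.1.le
      rw [Real.log_mul (Real.exp_pos _).ne' hY0.ne', Real.log_exp] at this
      linarith
    · have := Real.log_le_log hn0 hz.2.2
      rw [Real.log_mul (Real.exp_pos _).ne' hY0.ne', Real.log_exp] at this
      linarith
  have hrest : ∀ c : ℝ, 0 ≤ c → c ≤ 1 →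
      ∑ z ∈ (ann (Real.exp (-c) * Y) (Real.exp c * Y)).filter prim, 1 / (nm z : ℝ) =
      ∑ z ∈ pball (Real.exp 1 * Y),
        if z ∈ ann (Real.exp (-c) * Y) (Real.exp c * Y) then 1 / (nm z : ℝ) else 0 := by
    intro c hc0 hc1
    rw [← sum_filter]
    apply sum_congr _ (fun _ _ => rfl)
    ext z
    rw [mem_filter, mem_filter, mem_pball]
    constructor
    · rintro ⟨h4, h5⟩
      refine ⟨⟨h5, ?_⟩, h4⟩
      rw [mem_ann] at h4
      refine h4.2.2.trans ?_
      gcongr
    · rintro ⟨⟨h4, _⟩, h5⟩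
      exact ⟨h5, h4⟩
  rw [hrest _ (by norm_num) (by norm_num)] at h1 h2 h3
  have hpoint : ∀ z ∈ pball (Real.exp 1 * Y),
      1 / 4 * (if z ∈ ann (Real.exp (-(1 / 4)) * Y) (Real.exp (1 / 4) * Y) then 1 / (nm z : ℝ)
        else 0) +
      1 / 4 * (if z ∈ ann (Real.exp (-(1 / 2)) * Y) (Real.exp (1 / 2) * Y) then 1 / (nm z : ℝ)
        else 0) +
      1 / 4 * (if z ∈ ann (Real.exp (-(3 / 4)) * Y) (Real.exp (3 / 4) * Y) then 1 / (nm z : ℝ)
        else 0) ≤ bg Y z := by
    intro z hz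
    have hn : 0 ≤ 1 / (nm z : ℝ) := by positivity
    unfold bg w
    set s := Real.log (nm z) - Real.log Y with hs
    have hb : max 0 (1 - |s|) / (nm z : ℝ) = max 0 (1 - |s|) * (1 / (nm z : ℝ)) := by
      rw [mul_one_div]
    rw [hb]
    have m1 : 1 - |s| ≤ max 0 (1 - |s|) := le_max_right _ _
    have m0 : 0 ≤ max 0 (1 - |s|) := le_max_left _ _
    have hin1 : z ∈ ann (Real.exp (-(1 / 4)) * Y) (Real.exp (1 / 4) * Y) → 3 / 4 ≤ max 0 (1 - |s|) :=
      fun h => by linarith [hw _ (by norm_num) (by norm_num) z h]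
    have hin2 : z ∈ ann (Real.exp (-(1 / 2)) * Y) (Real.exp (1 / 2) * Y) → 1 / 2 ≤ max 0 (1 - |s|) :=
      fun h => by linarith [hw _ (by norm_num) (by norm_num) z h]
    have hin3 : z ∈ ann (Real.exp (-(3 / 4)) * Y) (Real.exp (3 / 4) * Y) → 1 / 4 ≤ max 0 (1 - |s|) :=
      fun h => by linarith [hw _ (by norm_num) (by norm_num) z h]
    by_cases c1 : z ∈ ann (Real.exp (-(1 / 4)) * Y) (Real.exp (1 / 4) * Y)
    · have := hin1 c1
      have h4 : (1 / 4 : ℝ) * (if z ∈ ann (Real.exp (-(1 / 2)) * Y) (Real.exp (1 / 2) * Y)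
        then 1 / (nm z : ℝ) else 0) ≤ 1 / 4 * (1 / (nm z : ℝ)) := by
        split_ifs <;> nlinarith
      have h5 : (1 / 4 : ℝ) * (if z ∈ ann (Real.exp (-(3 / 4)) * Y) (Real.exp (3 / 4) * Y)
        then 1 / (nm z : ℝ) else 0) ≤ 1 / 4 * (1 / (nm z : ℝ)) := by
        split_ifs <;> nlinarith
      rw [if_pos c1]
      nlinarith
    · rw [if_neg c1]
      by_cases c2 : z ∈ ann (Real.exp (-(1 / 2)) * Y) (Real.exp (1 / 2) * Y)
      · have := hin2 c2
        have h5 : (1 / 4 : ℝ) * (if z ∈ ann (Real.exp (-(3 / 4)) * Y) (Real.exp (3 / 4) * Y)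
          then 1 / (nm z : ℝ) else 0) ≤ 1 / 4 * (1 / (nm z : ℝ)) := by
          split_ifs <;> nlinarith
        rw [if_pos c2]
        nlinarith
      · rw [if_neg c2]
        by_cases c3 : z ∈ ann (Real.exp (-(3 / 4)) * Y) (Real.exp (3 / 4) * Y)
        · have := hin3 c3
          rw [if_pos c3]
          nlinarith
        · rw [if_neg c3]
          nlinarith [mul_nonneg m0 hn]
  have hfin := sum_le_sum hpoint
  rw [sum_add_distrib, sum_add_distrib, ← mul_sum, ← mul_sum, ← mul_sum] at hfin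
  have hpi := Real.pi_gt_d2
  linarith

end Pool.Agent.W40.GM
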